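import Pool.Agent.Helper67.LS5.CREa

/-!
Project LS5, row CRE: the contradiction.
-/

set_option autoImplicit false

open Filter NumberField Finset

namespace Pool.Agent.Helper67.LS5

open Pool.Agent.Helper9.LS5 Pool.Agent.Helper42.LS Pool.Agent.Helper42.LK

/-- finitely many finite places lie above `S` -/
theorem SK_exists (K : Type) [Field K] [NumberField K] (S : Finset ℕ)
    (hS : ∀ p ∈ S, p.Prime) : ∃ SK : Finset (FinitePlace K), ∀ v : FinitePlace K, v ∉ SK →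
    ∀ p ∈ S, v (p : K) = 1 := by
  classical
  have hfin : ∀ p ∈ S, {v : FinitePlace K | v (p : K) ≠ 1}.Finite := by
    intro p hp
    have h0 : (p : K) ≠ 0 := by exact_mod_cast (hS p hp).ne_zero
    exact FinitePlace.hasFiniteMulSupport h0
  have hU : {v : FinitePlace K | ∃ p ∈ S, v (p : K) ≠ 1}.Finite := by
    have : {v : FinitePlace K | ∃ p ∈ S, v (p : K) ≠ 1} =
        ⋃ p ∈ S, {v : FinitePlace K | v (p : K) ≠ 1} := by
      ext v
      simp
    rw [this]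
    exact S.finite_toSet.biUnion hfin
  refine ⟨hU.toFinset, fun v hv p hp => ?_⟩
  by_contra hne
  exact hv (hU.mem_toFinset.2 ⟨p, hp, hne⟩)

/-- (CRE) the contradiction -/
theorem CRE (hKMT2 : ST_KMT2) (hDIR : ST_DIR) (hBCH : ST_BCH) : ST_CRE := by
  intro K M _ _ _ _ f S φ A B x y e D hS hseq hH he hD hT
  obtain ⟨C₀, hC0, hK⟩ := hKMT2 K
  obtain ⟨SK, hSK⟩ := SK_exists K S hS
  set n0 : ℕ := ⌊C₀⌋₊ with hn0
  set Q : ℝ := 24 ^ (n0 + SK.card) with hQ
  have hQ1 : 1 ≤ Q := one_le_pow₀ (by norm_num)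
  have hD0 : (1 : ℝ) ≤ D := by exact_mod_cast hD
  set ε : ℝ := 1 / (64 * Q) with hε
  set ε' : ℝ := 1 / (64 * 144 * (D * Q) ^ 2) with hε'
  have hε0 : 0 < ε := by positivity
  have hε'0 : 0 < ε' := by positivity
  have hev := ((hT ε hε0).and (he ε' hε'0)).and (hH.eventually_ge_atTop (36 * C₀ + 1))
  obtain ⟨j, ⟨h1, h2⟩, h3⟩ := hev.exists
  obtain ⟨hd, hg, hc⟩ := hseq j
  obtain ⟨H, -, -, hH2, n, ws, ts, T, hn, hws, hTv, htot, hmain⟩ :=
    hK (A j) (B j) hd (x j) (y j) (e j) hg hc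
  have hnn : n ≤ n0 := Nat.le_floor hn
  obtain ⟨k, hk1, hk2, hk3⟩ := est hDIR hBCH f S (A j) (B j) (x j 1) (H := H) D hD n ws ts T SK
    hws (fun v hv => ⟨(hTv v hv).2.2.1, fun hm => ((hTv v hv).2.2.2 hm).2.2⟩) htot hSK h1
  have h4 := hmain k hk1
  have hkQ : (k : ℝ) ≤ D * Q := by
    have h5 : (k : ℝ) ≤ D * 24 ^ (n + SK.card) := by exact_mod_cast hk2
    refine h5.trans (mul_le_mul_of_nonneg_left ?_ (by positivity))
    rw [hQ]
    exact pow_le_pow_right₀ (by norm_num) (by omega)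
  have hHK : 0 < HK (A j) (B j) := by linarith
  have h6 : (24 : ℝ) ^ (n + SK.card) * (ε * HK (A j) (B j)) ≤ HK (A j) (B j) / 64 := by
    have h7 : (24 : ℝ) ^ (n + SK.card) ≤ Q := by
      rw [hQ]
      exact pow_le_pow_right₀ (by norm_num) (by omega)
    have h8 := mul_le_mul_of_nonneg_right h7 (by positivity : 0 ≤ ε * HK (A j) (B j))
    refine h8.trans (le_of_eq ?_)
    rw [hε]
    field_simp
  have h9 : 144 * (k : ℝ) ^ 2 * e j ≤ HK (A j) (B j) / 64 := by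
    have h10 : 144 * (k : ℝ) ^ 2 * e j ≤ 144 * (k : ℝ) ^ 2 * (ε' * HK (A j) (B j)) :=
      mul_le_mul_of_nonneg_left h2 (by positivity)
    have h11 : (k : ℝ) ^ 2 ≤ (D * Q) ^ 2 := pow_le_pow_left₀ (Nat.cast_nonneg _) hkQ 2
    have h12 : 144 * (k : ℝ) ^ 2 * (ε' * HK (A j) (B j)) ≤
        144 * (D * Q) ^ 2 * (ε' * HK (A j) (B j)) := by
      apply mul_le_mul_of_nonneg_right _ (by positivity)
      linarith
    refine (h10.trans h12).trans (le_of_eq ?_)
    rw [hε']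
    field_simp
  linarith

end Pool.Agent.Helper67.LS5
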