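import Mathlib

/-!
Project LS5, row VAL: real number lemmas at one place.
-/

set_option autoImplicit false

open Finset

namespace Pool.Agent.Helper67.LS5

/-- all terms except one are small -/
theorem sum_off {s : ℕ} (c : Fin s → ℤ) (l : Fin s → ℝ) {E : ℝ} (i0 : Fin s)
    (h : ∀ i, i ≠ i0 → |l i| ≤ E) (hE : 0 ≤ E) :
    |∑ i, (c i : ℝ) * l i - c i0 * l i0| ≤ (∑ i, |(c i : ℝ)|) * E := by
  rw [← Finset.sum_erase_eq_sub (Finset.mem_univ i0)]
  calc |∑ i ∈ univ.erase i0, (c i : ℝ) * l i| ≤ ∑ i ∈ univ.erase i0, |(c i : ℝ) * l i| :=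
        Finset.abs_sum_le_sum_abs _ _
    _ ≤ ∑ i ∈ univ.erase i0, |(c i : ℝ)| * E := by
        apply Finset.sum_le_sum
        intro i hi
        rw [abs_mul]
        exact mul_le_mul_of_nonneg_left (h i (Finset.ne_of_mem_erase hi)) (abs_nonneg _)
    _ ≤ ∑ i, |(c i : ℝ)| * E := by
        apply Finset.sum_le_sum_of_subset_of_nonneg (Finset.erase_subset _ _)
        intro i _ _
        positivity
    _ = _ := by rw [Finset.sum_mul]

/-- all terms are small -/
theorem sum_all {s : ℕ} (c : Fin s → ℤ) (l : Fin s → ℝ) {E : ℝ} (h : ∀ i, |l i| ≤ E) :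
    |∑ i, (c i : ℝ) * l i| ≤ (∑ i, |(c i : ℝ)|) * E := by
  calc |∑ i, (c i : ℝ) * l i| ≤ ∑ i, |(c i : ℝ) * l i| := Finset.abs_sum_le_sum_abs _ _
    _ ≤ ∑ i, |(c i : ℝ)| * E := by
        apply Finset.sum_le_sum
        intro i _
        rw [abs_mul]
        exact mul_le_mul_of_nonneg_left (h i) (abs_nonneg _)
    _ = _ := by rw [Finset.sum_mul]

/-- the component function is Lipschitz -/
theorem clamp_lip {z N z' N' T : ℝ} (hT : 0 ≤ T) (h1 : |z - z'| ≤ T) (h2 : |N - N'| ≤ T) :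
    |max 0 (min z (N / 2)) - max 0 (min z' (N' / 2))| ≤ T := by
  have h3 := abs_max_sub_max_le_max (0 : ℝ) (min z (N / 2)) 0 (min z' (N' / 2))
  have h4 := abs_min_sub_min_le_max z (N / 2) z' (N' / 2)
  refine h3.trans (max_le ?_ (h4.trans (max_le h1 ?_)))
  · simpa using hT
  · have h5 : N / 2 - N' / 2 = (N - N') / 2 := by ring
    rw [h5, abs_div, abs_two]
    have := abs_nonneg (N - N')
    linarith

/-- the small case -/
theorem small_case {P M E N z : ℝ} (hP : 0 ≤ P) (hN0 : 0 < N) (hNE : N ≤ M * E) :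
    |2 * P * (12 * max 0 (min z (N / 2))) - ((0 : ℤ) : ℝ) * N| ≤ 60 * P * M * E := by
  have f0 : 0 ≤ max 0 (min z (N / 2)) := le_max_left _ _
  have f1 : max 0 (min z (N / 2)) ≤ N / 2 := max_le (by linarith) (min_le_right _ _)
  rw [Int.cast_zero, zero_mul, sub_zero, abs_of_nonneg (by positivity)]
  have h1 : 2 * P * (12 * max 0 (min z (N / 2))) ≤ 2 * P * (12 * (N / 2)) := by
    apply mul_le_mul_of_nonneg_left _ (by positivity)
    linarith
  have h2 : P * N ≤ P * (M * E) := mul_le_mul_of_nonneg_left hNE hP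
  have h3 : 0 ≤ P * N := by positivity
  nlinarith

/-- the case with one large term -/
theorem large_case {M E N z l0 : ℝ} {n' P' : ℕ} {b0 : ℤ} (hn : 1 ≤ n') (hM : 0 ≤ M) (hE : 0 ≤ E)
    (hl : 0 ≤ l0) (h1 : |N - n' * l0| ≤ M * E) (h2 : |z - b0 * l0| ≤ M * E) :
    |2 * ((n' : ℝ) * P') * (12 * max 0 (min z (N / 2))) -
      ((12 * (P' : ℤ) * max 0 (min (2 * b0) (n' : ℤ)) : ℤ) : ℝ) * N| ≤
      60 * ((n' : ℝ) * P') * M * E := by
  set f : ℝ := max 0 (min z (N / 2)) with hf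
  set c2 : ℤ := max 0 (min (2 * b0) (n' : ℤ)) with hc2
  have hc0 : (0 : ℝ) ≤ c2 := by
    have : 0 ≤ c2 := le_max_left _ _
    exact_mod_cast this
  have hc1 : (c2 : ℝ) ≤ n' := by
    have : c2 ≤ (n' : ℤ) := max_le (by positivity) (min_le_right _ _)
    exact_mod_cast this
  have hME : 0 ≤ M * E := by positivity
  have e1 : (c2 : ℝ) / 2 * l0 = max 0 (min (b0 * l0) (n' * l0 / 2)) := by
    have : (c2 : ℝ) = max 0 (min (2 * (b0 : ℝ)) n') := by
      rw [hc2]
      push_cast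
      rfl
    rw [this, div_mul_eq_mul_div, max_mul_of_nonneg _ _ hl, min_mul_of_nonneg _ _ hl, zero_mul,
      ← max_div_div_right (by norm_num : (0 : ℝ) ≤ 2), ← min_div_div_right (by norm_num : (0 : ℝ) ≤ 2),
      zero_div]
    congr 2
    ring
  have h3 : |f - (c2 : ℝ) / 2 * l0| ≤ M * E := by
    rw [e1]
    exact clamp_lip hME h2 h1
  have e2 : 2 * ((n' : ℝ) * P') * (12 * f) - ((12 * (P' : ℤ) * c2 : ℤ) : ℝ) * N =
      12 * P' * (2 * n' * (f - (c2 : ℝ) / 2 * l0) + c2 * (n' * l0 - N)) := by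
    push_cast
    ring
  rw [e2, abs_mul, abs_of_nonneg (by positivity : (0 : ℝ) ≤ 12 * P')]
  have h4 : |2 * (n' : ℝ) * (f - (c2 : ℝ) / 2 * l0) + c2 * (n' * l0 - N)| ≤
      2 * n' * (M * E) + n' * (M * E) := by
    refine (abs_add_le _ _).trans (add_le_add ?_ ?_)
    · rw [abs_mul, abs_of_nonneg (by positivity : (0 : ℝ) ≤ 2 * (n' : ℝ))]
      exact mul_le_mul_of_nonneg_left h3 (by positivity)
    · rw [abs_mul, abs_of_nonneg hc0, abs_sub_comm]
      exact mul_le_mul hc1 h1 (abs_nonneg _) (by positivity)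
  have h5 := mul_le_mul_of_nonneg_left h4 (by positivity : (0 : ℝ) ≤ 12 * P')
  refine h5.trans ?_
  have h6 : 0 ≤ (P' : ℝ) * n' * (M * E) := by positivity
  nlinarith

/-- one place -/
theorem val_core (s : ℕ) (a b : Fin s → ℤ) : ∃ (D : ℕ) (C : ℝ), 1 ≤ D ∧ 0 ≤ C ∧
    ∀ (l : Fin s → ℝ) (u v E N z : ℝ), -N = u + ∑ i, a i * l i → z = v + ∑ i, b i * l i →
    0 < N → 0 ≤ E → |u| ≤ E → |v| ≤ E → (∀ i, -E ≤ l i) → (∀ i i', i ≠ i' → min (l i) (l i') ≤ E) →
    ∃ m : ℤ, |D * (12 * max 0 (min z (N / 2))) - m * N| ≤ C * E := by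
  set P : ℕ := ∏ i, (if a i = 0 then 1 else (a i).natAbs) with hP
  have hP1 : 1 ≤ P := by
    have h0 : 0 < ∏ i, (if a i = 0 then 1 else (a i).natAbs) := by
      apply Finset.prod_pos
      intro i _
      split_ifs with h
      · exact one_pos
      · exact Int.natAbs_pos.2 h
    exact h0
  set M : ℝ := 1 + ∑ i, |(a i : ℝ)| + ∑ i, |(b i : ℝ)| with hM
  have hA0 : 0 ≤ ∑ i, |(a i : ℝ)| := Finset.sum_nonneg fun i _ => abs_nonneg _
  have hB0 : 0 ≤ ∑ i, |(b i : ℝ)| := Finset.sum_nonneg fun i _ => abs_nonneg _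
  have hM0 : 0 ≤ M := by positivity
  refine ⟨2 * P, 60 * P * M, by omega, by positivity, ?_⟩
  intro l u v E N z hN hz hN0 hE hu hv hl hmin
  have hu' := abs_le.1 hu
  have hv' := abs_le.1 hv
  have hAE : 0 ≤ (∑ i, |(a i : ℝ)|) * E := by positivity
  have hBE : 0 ≤ (∑ i, |(b i : ℝ)|) * E := by positivity
  have hME : M * E = E + (∑ i, |(a i : ℝ)|) * E + (∑ i, |(b i : ℝ)|) * E := by
    rw [hM]; ring
  have hsm : N ≤ M * E → ∃ m : ℤ, |((2 * P : ℕ) : ℝ) * (12 * max 0 (min z (N / 2))) - m * N| ≤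
      60 * P * M * E := by
    intro h
    refine ⟨0, ?_⟩
    have h2 := small_case (P := (P : ℝ)) (z := z) (Nat.cast_nonneg P) hN0 h
    push_cast at h2 ⊢
    exact h2
  by_cases hbig : ∃ i0, E < l i0
  · obtain ⟨i0, h0⟩ := hbig
    have hoth : ∀ i, i ≠ i0 → |l i| ≤ E := by
      intro i hi
      refine abs_le.2 ⟨hl i, ?_⟩
      rcases min_le_iff.1 (hmin i i0 hi) with h | h
      · exact h
      · linarith
    have hA := abs_le.1 (sum_off a l i0 hoth hE)
    have hB := abs_le.1 (sum_off b l i0 hoth hE)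
    rcases le_or_gt 0 (a i0) with ha | ha
    · apply hsm
      have h3 : 0 ≤ (a i0 : ℝ) * l i0 := mul_nonneg (by exact_mod_cast ha) (by linarith)
      rw [hME]
      linarith [hA.1]
    · obtain ⟨P', hP'⟩ : (a i0).natAbs ∣ P := by
        have h4 := Finset.dvd_prod_of_mem (fun i => if a i = 0 then 1 else (a i).natAbs)
          (Finset.mem_univ i0)
        simp only [ha.ne, if_false] at h4
        exact h4
      have hn' : (((a i0).natAbs : ℕ) : ℝ) = -(a i0 : ℝ) := by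
        rw [Nat.cast_natAbs, abs_of_neg ha, Int.cast_neg]
      refine ⟨12 * (P' : ℤ) * max 0 (min (2 * b i0) ((a i0).natAbs : ℤ)), ?_⟩
      have h6 := large_case (M := M) (E := E) (N := N) (z := z) (l0 := l i0)
        (n' := (a i0).natAbs) (P' := P') (b0 := b i0) (Int.natAbs_pos.2 ha.ne) hM0 hE
        (by linarith) (by
          rw [hn', hME, abs_le]
          constructor <;> linarith [hA.1, hA.2]) (by
          rw [hME, abs_le]
          constructor <;> linarith [hB.1, hB.2])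
      have h7 : ((2 * P : ℕ) : ℝ) = 2 * ((((a i0).natAbs : ℕ) : ℝ) * P') := by
        rw [hP']; push_cast; ring
      have h8 : (P : ℝ) = (((a i0).natAbs : ℕ) : ℝ) * P' := by rw [hP']; push_cast; ring
      rw [h7, h8]
      exact h6
  · push Not at hbig
    apply hsm
    have hall : ∀ i, |l i| ≤ E := fun i => abs_le.2 ⟨hl i, hbig i⟩
    have hA := abs_le.1 (sum_all a l hall)
    rw [hME]
    linarith [hA.1]

end Pool.Agent.Helper67.LS5
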