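import Pool.Agent.Helper9.LS5.SheetN
import Pool.Agent.Helper67.LS5.VALa

/-!
Project LS5, row VAL.
-/

set_option autoImplicit false

namespace Pool.Agent.Helper67.LS5

open Pool.Agent.Helper9.LS5

/-- (VAL) one place -/
theorem VAL : ST_VAL := fun s a b => val_core s a b

end Pool.Agent.Helper67.LS5
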