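import Pool.Agent.Helper67.LS5.CRELa

/-!
Project LS5, row CREL: uniform lower bound for all integral combinations.
-/

set_option autoImplicit false

open Filter NumberField Finset

namespace Pool.Agent.Helper67.LS5

open Pool.Agent.Helper9.LS5 Pool.Agent.Helper42.LS Pool.Agent.Helper42.LK
  Pool.Agent.Helper54.LM

/-- the height of a multiple -/
theorem can_mul {K : Type} [Field K] [NumberField K] {m : ℕ} (X : (Fin m → ℤ) → K)
    (e : (Fin m → ℤ) → ℝ) (h : ∀ k, k ≠ 0 → IsCanK (fun n : ℕ => X (n • k)) (e k))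
    (k : Fin m → ℤ) (hk : k ≠ 0) (N : ℕ) (hN : 1 ≤ N) (hNk : N • k ≠ 0) :
    e (N • k) = (N : ℝ) ^ 2 * e k := by
  have h1 := h k hk N hN
  have h2 := h (N • k) hNk 1 le_rfl
  have h3 : (fun n : ℕ => Height.logHeight₁ (X ((1 * 2 ^ n) • N • k)) / 4 ^ n) =
      fun n : ℕ => Height.logHeight₁ (X ((N * 2 ^ n) • k)) / 4 ^ n := by
    funext n
    rw [smul_smul]
    congr 4
    ring
  have h4 := tendsto_nhds_unique (h3 ▸ h2) h1
  simpa using h4

/-- (CREL) uniform lower bound for all integral combinations -/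
theorem CREL (hLMT2 : ST_LMT2) (hDIR : ST_DIR) (hBCH : ST_BCH) : ST_CREL := by
  intro K M _ _ _ _ f S φ m A B X Y e D hS hseq hH hD hT
  obtain ⟨C₀, hC0, hK⟩ := hLMT2 K m
  obtain ⟨SK, hSK⟩ := SK_exists K S hS
  set n0 : ℕ := ⌊C₀⌋₊ with hn0
  set Q : ℝ := 24 ^ (n0 + SK.card) with hQ
  have hQ1 : 1 ≤ Q := one_le_pow₀ (by norm_num)
  have hD0 : (1 : ℝ) ≤ D := by exact_mod_cast hD
  set ε' : ℝ := 1 / (64 * 144 * (D * Q) ^ 2) with hε'
  have hε'0 : 0 < ε' := by positivity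
  refine ⟨ε', hε'0, fun k hk => ?_⟩
  set s : ℝ := ∑ i, |(k i : ℝ)| with hs
  have hs0 : 0 ≤ s := Finset.sum_nonneg fun i _ => abs_nonneg _
  set ε : ℝ := 1 / (64 * Q * (s + 1)) with hε
  have hε0 : 0 < ε := by positivity
  have hev := (Filter.eventually_all.2 fun i => hT i ε hε0).and
    (hH.eventually_ge_atTop (36 * C₀ + 1))
  filter_upwards [hev] with j hj
  obtain ⟨h1, h3⟩ := hj
  obtain ⟨hd, hg, hc⟩ := hseq j
  obtain ⟨H, -, -, hH2, n, ws, ts, T, tv, hn, hws, hTv, htot, hmain⟩ :=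
    hK (A j) (B j) hd (X j) (Y j) (e j) hg hc
  have hnn : n ≤ n0 := Nat.le_floor hn
  obtain ⟨k', hk1, hk2, hk3⟩ := estL hDIR hBCH f S (A j) (B j)
    (fun i => X j (Pi.single i 1)) k (H := H) (fun _ => ε * HK (A j) (B j)) D hD n ws ts T SK tv
    hws (fun v hv => ⟨(hTv v hv).2.2.1, fun hm => ((hTv v hv).2.2.2.1 hm).2.2,
      (hTv v hv).2.2.2.2⟩) htot hSK h1
  have hNk : k' • k ≠ 0 := by
    intro h
    apply hk
    funext i
    have h5 := congrFun h i
    rw [Pi.smul_apply, Pi.zero_apply, nsmul_eq_mul] at h5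
    rcases mul_eq_zero.1 h5 with h6 | h6
    · exfalso
      have : k' = 0 := by exact_mod_cast h6
      omega
    · exact h6
  have h4 := hmain (k' • k) hNk
  rw [can_mul (X j) (e j) hc k hk k' hk1 hNk] at h4
  simp only [pr_nsmul] at h4
  have hkQ : (k' : ℝ) ≤ D * Q := by
    have h5 : (k' : ℝ) ≤ D * 24 ^ (n + SK.card) := by exact_mod_cast hk2
    refine h5.trans (mul_le_mul_of_nonneg_left ?_ (by positivity))
    rw [hQ]
    exact pow_le_pow_right₀ (by norm_num) (by omega)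
  have hHK : 0 < HK (A j) (B j) := by linarith
  have h6 : (24 : ℝ) ^ (n + SK.card) * ∑ i, |(k i : ℝ)| * (ε * HK (A j) (B j)) ≤
      HK (A j) (B j) / 64 := by
    rw [← Finset.sum_mul, ← hs]
    have h7 : (24 : ℝ) ^ (n + SK.card) ≤ Q := by
      rw [hQ]
      exact pow_le_pow_right₀ (by norm_num) (by omega)
    have h8 := mul_le_mul_of_nonneg_right h7
      (by positivity : 0 ≤ s * (ε * HK (A j) (B j)))
    refine h8.trans ?_
    have h9 : Q * (s * (ε * HK (A j) (B j))) = s / (s + 1) * (HK (A j) (B j) / 64) := by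
      rw [hε]
      field_simp
    rw [h9]
    have h10 : s / (s + 1) ≤ 1 := by
      rw [div_le_one (by positivity)]
      linarith
    exact mul_le_of_le_one_left (by positivity) h10
  by_contra hlt
  push Not at hlt
  have h9 : 144 * ((k' : ℝ) ^ 2 * e j k) ≤ HK (A j) (B j) / 64 := by
    have h10 : (k' : ℝ) ^ 2 * e j k ≤ (k' : ℝ) ^ 2 * (ε' * HK (A j) (B j)) :=
      mul_le_mul_of_nonneg_left hlt.le (by positivity)
    have h11 : (k' : ℝ) ^ 2 ≤ (D * Q) ^ 2 := pow_le_pow_left₀ (Nat.cast_nonneg _) hkQ 2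
    have h12 : (k' : ℝ) ^ 2 * (ε' * HK (A j) (B j)) ≤
        (D * Q) ^ 2 * (ε' * HK (A j) (B j)) :=
      mul_le_mul_of_nonneg_right h11 (by positivity)
    have h13 : 144 * ((D * Q) ^ 2 * (ε' * HK (A j) (B j))) = HK (A j) (B j) / 64 := by
      rw [hε']
      field_simp
    linarith
  linarith

end Pool.Agent.Helper67.LS5
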