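import Pool.Agent.Helper9.LS5.SheetR
import Pool.Agent.Helper67.LS5.CRE

/-!
Project LS5, row CREL: the estimate of the left side of the master inequality, several points.
-/

set_option autoImplicit false

open Filter NumberField Finset

namespace Pool.Agent.Helper67.LS5

open Pool.Agent.Helper9.LS5 Pool.Agent.Helper42.LS Pool.Agent.Helper42.LK
  Pool.Agent.Helper54.LM

/-- the pairing of a multiple -/
theorem pr_nsmul {m : ℕ} (N : ℕ) (k : Fin m → ℤ) (t : Fin m → ℝ) :
    pr (N • k) t = N * pr k t := by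
  unfold pr
  rw [Finset.mul_sum]
  apply Finset.sum_congr rfl
  intro i _
  rw [Pi.smul_apply]
  simp only [nsmul_eq_mul, Int.cast_mul, Int.cast_natCast]
  ring

/-- combination of components known up to sign and integers -/
theorem sg_comb {m : ℕ} (D : ℕ) (k : Fin m → ℤ) (t z : Fin m → ℝ) (a : Fin m → ℤ)
    (h : ∀ i, Sg (t i) (z i)) :
    ∃ N : ℤ, |D * pr k t - N| ≤ ∑ i, |(k i : ℝ)| * |D * z i - a i| := by
  have h1 : ∀ i, ∃ Ni : ℤ, |D * t i - Ni| = |D * z i - a i| := by
    intro i
    obtain ⟨n, h2 | h2⟩ := h i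
    · refine ⟨a i + D * n, ?_⟩
      have e : (D : ℝ) * t i - ((a i + D * n : ℤ) : ℝ) = D * z i - a i := by
        rw [h2]
        push_cast
        ring
      rw [e]
    · refine ⟨-a i + D * n, ?_⟩
      have e : (D : ℝ) * t i - ((-a i + D * n : ℤ) : ℝ) = -(D * z i - a i) := by
        rw [h2]
        push_cast
        ring
      rw [e, abs_neg]
  choose Ni hNi using h1
  refine ⟨∑ i, k i * Ni i, ?_⟩
  have e : (D : ℝ) * pr k t - ((∑ i, k i * Ni i : ℤ) : ℝ) =
      ∑ i, (k i : ℝ) * (D * t i - Ni i) := by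
    unfold pr
    push_cast
    rw [Finset.mul_sum, ← Finset.sum_sub_distrib]
    apply Finset.sum_congr rfl
    intro i _
    ring
  rw [e]
  refine (Finset.abs_sum_le_sum_abs _ _).trans (le_of_eq ?_)
  apply Finset.sum_congr rfl
  intro i _
  rw [abs_mul, hNi i]

/-- the error of one component at a place of multiplicative reduction -/
theorem mul_err {K M : Type} [Field K] [NumberField K] [Field M] [NumberField M] {f : K →+* M}
    {v : FinitePlace K} {V : FinitePlace M} {κ : ℕ} (hκ : 1 ≤ κ)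
    (hv : ∀ x : K, V (f x) = v x ^ κ) {A B x : K} (hmul : IsMul (fun z : K => v z) A B)
    (hJ : 0 < Real.log (v (jK A B))) (D : ℕ) (a : ℤ) :
    Real.log (v (jK A B)) * |D * tz (fun z : K => v z) A B x - a| ≤
      |D * (12 * aV V (f (jK A B)) (f (zz A B x))) - a * Real.log (V (f (jK A B)))| := by
  classical
  have hκ0 : (1 : ℝ) ≤ κ := by exact_mod_cast hκ
  have hlog : ∀ z : K, Real.log (V (f z)) = κ * Real.log (v z) := fun z => by
    rw [hv, Real.log_pow]
  have hal : aV V (f (jK A B)) (f (zz A B x)) = κ * al (fun z : K => v z) A B x := by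
    unfold aV al
    rw [hlog, hlog]
    by_cases hz : zz A B x = 0
    · rw [if_pos hz, if_pos (by rw [hz, map_zero])]
      ring
    · rw [if_neg hz, if_neg (by rwa [map_eq_zero])]
      rw [mul_max_of_nonneg _ _ (by positivity : (0 : ℝ) ≤ κ),
        mul_min_of_nonneg _ _ (by positivity : (0 : ℝ) ≤ κ), mul_zero]
      congr 2
      · ring
      · ring
  set L : ℝ := Real.log (v (jK A B)) with hL
  set a0 : ℝ := al (fun z : K => v z) A B x with ha0
  have htz : tz (fun z : K => v z) A B x = 12 * a0 / L := by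
    unfold tz
    rw [if_pos hmul]
  have e : D * (12 * aV V (f (jK A B)) (f (zz A B x))) - a * Real.log (V (f (jK A B))) =
      κ * (D * (12 * a0) - a * L) := by
    rw [hal, hlog]
    ring
  rw [e, abs_mul, abs_of_nonneg (by positivity : (0 : ℝ) ≤ κ), htz]
  have h3 : L * |D * (12 * a0 / L) - a| = |D * (12 * a0) - a * L| := by
    have h4 : (D : ℝ) * (12 * a0 / L) - a = (D * (12 * a0) - a * L) / L := by
      field_simp
    rw [h4, abs_div, abs_of_pos hJ]
    field_simp
  rw [h3]
  exact le_mul_of_one_le_left (abs_nonneg _) hκ0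

/-- **the estimate** -/
theorem estL (hDIR : ST_DIR) (hBCH : ST_BCH) {K M : Type} [Field K] [NumberField K] [Field M]
    [NumberField M] (f : K →+* M) (S : Finset ℕ) (A B : K) {m : ℕ} (xs : Fin m → K)
    (k : Fin m → ℤ) {C₀ H : ℝ} (E : Fin m → ℝ) (D : ℕ)
    (hD : 1 ≤ D) (n : ℕ) (ws : Fin n → ℝ) (ts : Fin n → Fin m → ℝ)
    (T SK : Finset (FinitePlace K)) (tv : FinitePlace K → Fin m → ℝ)
    (hws : ∀ i, 0 ≤ ws i)
    (hT : ∀ v ∈ T, 0 ≤ dl (fun z : K => v z) A B ∧ (IsMul (fun z : K => v z) A B →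
      0 < Real.log (v (jK A B)) ∧ dl (fun z : K => v z) A B = Real.log (v (jK A B))) ∧
      ∀ i, Sg (tv v i) (tz (fun z : K => v z) A B (xs i)))
    (htot : |∑ i, ws i + ∑ v ∈ T, dl (fun z : K => v z) A B - H| ≤ C₀)
    (hSK : ∀ v : FinitePlace K, v ∉ SK → ∀ p ∈ S, v (p : K) = 1)
    (hE : ∀ i, ∀ T' : Finset (FinitePlace M),
      (∀ V ∈ T', Aw S V ∧ 0 < Real.log (V (f (jK A B)))) →
      ∃ a : FinitePlace M → ℤ, ∑ V ∈ T', |D * (12 * aV V (f (jK A B)) (f (zz A B (xs i)))) -
        a V * Real.log (V (f (jK A B)))| ≤ E i) :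
    ∃ k' : ℕ, 1 ≤ k' ∧ k' ≤ D * 24 ^ (n + SK.card) ∧
      (H - C₀) / 8 - 24 ^ (n + SK.card) * ∑ i, |(k i : ℝ)| * E i ≤
        ∑ i, ws i * B2 (k' * pr k (ts i)) +
        ∑ v ∈ T, dl (fun z : K => v z) A B * B2 (k' * pr k (tv v)) := by
  classical
  choose V κ hκ hV using fun v : FinitePlace K => hBCH K M f v
  set T2 : Finset (FinitePlace K) :=
    T.filter (fun v => v ∉ SK ∧ IsMul (fun z : K => v z) A B) with hT2
  have hinj : ∀ v w : FinitePlace K, V v = V w → v = w := by
    intro v w h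
    refine fp_inj (f := f) (V := V v) (hκ v) (hκ w) (hV v) ?_
    intro z
    rw [h]
    exact hV w z
  have hT2' : ∀ W ∈ T2.image V, Aw S W ∧ 0 < Real.log (W (f (jK A B))) := by
    intro W hW
    obtain ⟨v, hv, rfl⟩ := Finset.mem_image.1 hW
    rw [hT2, Finset.mem_filter] at hv
    obtain ⟨hvT, hvS, hvm⟩ := hv
    refine ⟨?_, ?_⟩
    · intro p hp
      have h1 := hV v (p : K)
      rw [map_natCast] at h1
      rw [h1, hSK v hvS p hp, one_pow]
    · rw [hV, Real.log_pow]
      have h2 := ((hT v hvT).2.1 hvm).1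
      have h3 : (1 : ℝ) ≤ κ v := by exact_mod_cast hκ v
      positivity
  choose a ha using fun i => hE i (T2.image V) hT2'
  set er : Fin m → FinitePlace K → ℝ := fun i v =>
    |D * (12 * aV (V v) (f (jK A B)) (f (zz A B (xs i)))) -
      a i (V v) * Real.log (V v (f (jK A B)))| with her
  have hsum : ∀ i, ∑ v ∈ T2, er i v ≤ E i := by
    intro i
    have h1 := ha i
    rw [Finset.sum_image (fun v _ w _ h => hinj v w h)] at h1
    exact h1
  have hE0 : ∀ i, 0 ≤ E i := fun i =>
    le_trans (Finset.sum_nonneg fun v _ => abs_nonneg _) (hsum i)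
  obtain ⟨k', hk1, hk2, hk3⟩ := dir_fin hDIR (ι := Fin n ⊕ {v // v ∈ SK}) 24 (by norm_num)
    (Sum.elim (fun i => (D : ℝ) * pr k (ts i)) (fun v => (D : ℝ) * pr k (tv v.1)))
  have hcard : Fintype.card (Fin n ⊕ {v // v ∈ SK}) = n + SK.card := by
    rw [Fintype.card_sum, Fintype.card_fin, Fintype.card_coe]
  rw [hcard] at hk2
  refine ⟨D * k', Nat.one_le_iff_ne_zero.2 (Nat.mul_ne_zero (by omega) (by omega)),
    Nat.mul_le_mul_left D hk2, ?_⟩
  have hk0 : (0 : ℝ) ≤ k' := Nat.cast_nonneg _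
  have hk4 : (k' : ℝ) ≤ 24 ^ (n + SK.card) := by exact_mod_cast hk2
  have h8 : ∀ t : ℝ, (∃ N : ℤ, |k' * (D * t) - N| ≤ 1 / ((24 : ℕ) : ℝ)) →
      1 / 8 ≤ B2 (((D * k' : ℕ) : ℝ) * t) := by
    rintro t ⟨N, hN⟩
    have h1 := B2_near (((D * k' : ℕ) : ℝ) * t) N
    have h2 : ((D * k' : ℕ) : ℝ) * t = k' * (D * t) := by push_cast; ring
    rw [h2] at h1 ⊢
    norm_num at hN
    linarith
  have hA : (∑ i, ws i) / 8 ≤ ∑ i, ws i * B2 (((D * k' : ℕ) : ℝ) * pr k (ts i)) := by
    rw [Finset.sum_div]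
    apply Finset.sum_le_sum
    intro i _
    have h1 := h8 (pr k (ts i)) (hk3 (Sum.inl i))
    have h2 := mul_le_mul_of_nonneg_left h1 (hws i)
    linarith
  have hB : ∀ v ∈ T, dl (fun z : K => v z) A B / 8 -
      (if v ∉ SK ∧ IsMul (fun z : K => v z) A B then k' * ∑ i, |(k i : ℝ)| * er i v else 0) ≤
      dl (fun z : K => v z) A B * B2 (((D * k' : ℕ) : ℝ) * pr k (tv v)) := by
    intro v hv
    obtain ⟨h1, h2, hsg⟩ := hT v hv
    by_cases hS : v ∈ SK
    · rw [if_neg (by tauto), sub_zero]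
      have h3 := h8 (pr k (tv v)) (hk3 (Sum.inr ⟨v, hS⟩))
      have h4 := mul_le_mul_of_nonneg_left h3 h1
      linarith
    · obtain ⟨N, hN⟩ := sg_comb D k (tv v) (fun i => tz (fun z : K => v z) A B (xs i))
        (fun i => if IsMul (fun z : K => v z) A B then a i (V v) else 0) hsg
      have hB2 := B2_near (((D * k' : ℕ) : ℝ) * pr k (tv v)) (k' * N)
      have h5 : |((D * k' : ℕ) : ℝ) * pr k (tv v) - ((k' * N : ℤ) : ℝ)| =
          k' * |D * pr k (tv v) - N| := by
        have h6 : ((D * k' : ℕ) : ℝ) * pr k (tv v) - ((k' * N : ℤ) : ℝ) =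
            k' * (D * pr k (tv v) - N) := by
          push_cast
          ring
        rw [h6, abs_mul, abs_of_nonneg hk0]
      rw [h5] at hB2
      by_cases hmul : IsMul (fun z : K => v z) A B
      · rw [if_pos ⟨hS, hmul⟩]
        obtain ⟨h3, h4⟩ := h2 hmul
        rw [h4]
        simp only [if_pos hmul] at hN
        have h7 : Real.log (v (jK A B)) * |D * pr k (tv v) - N| ≤
            ∑ i, |(k i : ℝ)| * er i v := by
          refine (mul_le_mul_of_nonneg_left hN h3.le).trans ?_
          rw [Finset.mul_sum]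
          apply Finset.sum_le_sum
          intro i _
          have h8 := mul_err (hκ v) (hV v) hmul h3 D (a i (V v)) (x := xs i)
          have h9 := mul_le_mul_of_nonneg_left h8 (abs_nonneg (k i : ℝ))
          have h10 : er i v = |D * (12 * aV (V v) (f (jK A B)) (f (zz A B (xs i)))) -
            a i (V v) * Real.log (V v (f (jK A B)))| := rfl
          rw [h10]
          linarith
        have h11 := mul_le_mul_of_nonneg_left hB2 h3.le
        have h12 := mul_le_mul_of_nonneg_left h7 hk0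
        have h13 : Real.log (v (jK A B)) * (k' * |D * pr k (tv v) - N|) =
            k' * (Real.log (v (jK A B)) * |D * pr k (tv v) - N|) := by ring
        have h14 : Real.log (v (jK A B)) * (1 / 6 - k' * |D * pr k (tv v) - N|) =
            Real.log (v (jK A B)) / 6 -
              Real.log (v (jK A B)) * (k' * |D * pr k (tv v) - N|) := by ring
        rw [h14, h13] at h11
        linarith
      · rw [if_neg (by tauto), sub_zero]
        simp only [if_neg hmul] at hN
        have h3 : ∀ i, tz (fun z : K => v z) A B (xs i) = 0 := by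
          intro i
          unfold tz
          rw [if_neg hmul]
        simp only [h3, mul_zero, Int.cast_zero, sub_zero, abs_zero, Finset.sum_const_zero] at hN
        have h15 : |D * pr k (tv v) - N| = 0 := le_antisymm hN (abs_nonneg _)
        rw [h15, mul_zero, sub_zero] at hB2
        have h16 := mul_le_mul_of_nonneg_left hB2 h1
        linarith
  have hC := Finset.sum_le_sum hB
  rw [Finset.sum_sub_distrib, ← Finset.sum_div, ← Finset.sum_filter, ← hT2, ← Finset.mul_sum] at hC
  have hF : (k' : ℝ) * ∑ v ∈ T2, ∑ i, |(k i : ℝ)| * er i v ≤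
      24 ^ (n + SK.card) * ∑ i, |(k i : ℝ)| * E i := by
    have h1 : ∑ v ∈ T2, ∑ i, |(k i : ℝ)| * er i v ≤ ∑ i, |(k i : ℝ)| * E i := by
      rw [Finset.sum_comm]
      apply Finset.sum_le_sum
      intro i _
      rw [← Finset.mul_sum]
      exact mul_le_mul_of_nonneg_left (hsum i) (abs_nonneg _)
    exact mul_le_mul hk4 h1 (Finset.sum_nonneg fun v _ => Finset.sum_nonneg fun i _ =>
      mul_nonneg (abs_nonneg _) (abs_nonneg _)) (by positivity)
  have hG := (abs_le.1 htot).1
  linarith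

end Pool.Agent.Helper67.LS5
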