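import Pool.Agent.Helper9.LS5.SheetF

/-!
Project LS5, row CRE: the estimate of the left side of the master inequality.
-/

set_option autoImplicit false

open Filter NumberField Finset

namespace Pool.Agent.Helper67.LS5

open Pool.Agent.Helper9.LS5 Pool.Agent.Helper42.LS Pool.Agent.Helper42.LK

/-- the Bernoulli function near an integer -/
theorem B2_near (u : ℝ) (m : ℤ) : 1 / 6 - |u - m| ≤ B2 u := by
  have h0 := Int.fract_nonneg u
  have h1 := (Int.fract_lt_one u).le
  have hu : u = ⌊u⌋ + Int.fract u := (Int.floor_add_fract u).symm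
  have key : Int.fract u * (1 - Int.fract u) ≤ |u - m| := by
    rcases le_or_gt m ⌊u⌋ with h | h
    · have h2 : (m : ℝ) ≤ ⌊u⌋ := by exact_mod_cast h
      have h3 : Int.fract u ≤ u - m := by linarith
      have h4 := h3.trans (le_abs_self _)
      nlinarith
    · have h2 : ((⌊u⌋ : ℤ) : ℝ) + 1 ≤ m := by exact_mod_cast h
      have h3 : 1 - Int.fract u ≤ -(u - m) := by linarith
      have h4 := h3.trans (neg_le_abs _)
      nlinarith
  unfold B2
  nlinarith

theorem B2_zero' : B2 0 = 1 / 6 := by simp [B2]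

/-- a place of the extension lies above one place only -/
theorem fp_inj {K M : Type} [Field K] [NumberField K] [Field M] [NumberField M] {f : K →+* M}
    {v w : FinitePlace K} {V : FinitePlace M} {κ κ' : ℕ} (hκ : 1 ≤ κ) (hκ' : 1 ≤ κ')
    (hv : ∀ x : K, V (f x) = v x ^ κ) (hw : ∀ x : K, V (f x) = w x ^ κ') : v = w := by
  rw [← FinitePlace.maximalIdeal_inj]
  apply IsDedekindDomain.HeightOneSpectrum.ext
  ext x
  have h1 : ∀ u : FinitePlace K, x ∈ u.maximalIdeal.asIdeal ↔ u (algebraMap (𝓞 K) K x) < 1 := by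
    intro u
    rw [← FinitePlace.norm_lt_one_iff_mem K, FinitePlace.norm_embedding_eq]
  have h2 : ∀ (u : FinitePlace K) (k : ℕ), 1 ≤ k →
      (u (algebraMap (𝓞 K) K x) < 1 ↔ u (algebraMap (𝓞 K) K x) ^ k < 1) := by
    intro u k hk
    exact (pow_lt_one_iff_of_nonneg (apply_nonneg _ _) (by omega)).symm
  rw [h1, h1, h2 v κ hκ, h2 w κ' hκ', ← hv, ← hw]

/-- Dirichlet's theorem for a finite index type -/
theorem dir_fin (h : ST_DIR) {ι : Type} [Fintype ι] (Q : ℕ) (hQ : 1 ≤ Q) (t : ι → ℝ) :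
    ∃ k : ℕ, 1 ≤ k ∧ k ≤ Q ^ Fintype.card ι ∧ ∀ i, ∃ m : ℤ, |k * t i - m| ≤ 1 / (Q : ℝ) := by
  obtain ⟨k, h1, h2, h3⟩ := h (Fintype.card ι) Q (fun i => t ((Fintype.equivFin ι).symm i)) hQ
  refine ⟨k, h1, h2, fun i => ?_⟩
  obtain ⟨m, hm⟩ := h3 (Fintype.equivFin ι i)
  rw [Equiv.symm_apply_apply] at hm
  exact ⟨m, hm⟩

/-- one place of multiplicative reduction -/
theorem mul_place {K M : Type} [Field K] [NumberField K] [Field M] [NumberField M] {f : K →+* M}
    {v : FinitePlace K} {V : FinitePlace M} {κ : ℕ} (hκ : 1 ≤ κ)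
    (hv : ∀ x : K, V (f x) = v x ^ κ) {A B x : K} (hmul : IsMul (fun z : K => v z) A B)
    (hJ : 0 < Real.log (v (jK A B))) (D k' : ℕ) (m : ℤ) :
    Real.log (v (jK A B)) / 6 - k' * |D * (12 * aV V (f (jK A B)) (f (zz A B x))) -
      m * Real.log (V (f (jK A B)))| ≤
      Real.log (v (jK A B)) * B2 (((D * k' : ℕ) : ℝ) * tz (fun z : K => v z) A B x) := by
  classical
  have hκ0 : (1 : ℝ) ≤ κ := by exact_mod_cast hκ
  have hlog : ∀ z : K, Real.log (V (f z)) = κ * Real.log (v z) := fun z => by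
    rw [hv, Real.log_pow]
  have hal : aV V (f (jK A B)) (f (zz A B x)) = κ * al (fun z : K => v z) A B x := by
    unfold aV al
    rw [hlog, hlog]
    by_cases hz : zz A B x = 0
    · rw [if_pos hz, if_pos (by rw [hz, map_zero])]
      ring
    · rw [if_neg hz, if_neg (by rwa [map_eq_zero])]
      rw [mul_max_of_nonneg _ _ (by positivity : (0 : ℝ) ≤ κ),
        mul_min_of_nonneg _ _ (by positivity : (0 : ℝ) ≤ κ), mul_zero]
      congr 2
      · ring
      · ring
  set L : ℝ := Real.log (v (jK A B)) with hL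
  set a0 : ℝ := al (fun z : K => v z) A B x with ha0
  have htz : tz (fun z : K => v z) A B x = 12 * a0 / L := by
    unfold tz
    rw [if_pos hmul]
  have h1 : |D * (12 * a0) - m * L| ≤ |D * (12 * aV V (f (jK A B)) (f (zz A B x))) -
      m * Real.log (V (f (jK A B)))| := by
    have e : D * (12 * aV V (f (jK A B)) (f (zz A B x))) - m * Real.log (V (f (jK A B))) =
        κ * (D * (12 * a0) - m * L) := by
      rw [hal, hlog]
      ring
    rw [e, abs_mul, abs_of_nonneg (by positivity : (0 : ℝ) ≤ κ)]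
    exact le_mul_of_one_le_left (abs_nonneg _) hκ0
  have h2 := B2_near (((D * k' : ℕ) : ℝ) * (12 * a0 / L)) (k' * m)
  have h3 : L * |((D * k' : ℕ) : ℝ) * (12 * a0 / L) - ((k' * m : ℤ) : ℝ)| =
      k' * |D * (12 * a0) - m * L| := by
    have h4 : ((D * k' : ℕ) : ℝ) * (12 * a0 / L) - ((k' * m : ℤ) : ℝ) =
        k' * (D * (12 * a0) - m * L) / L := by
      push_cast
      field_simp
    rw [h4, abs_div, abs_mul, abs_of_pos hJ, abs_of_nonneg (by positivity : (0 : ℝ) ≤ k')]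
    field_simp
  rw [htz]
  have h5 := mul_le_mul_of_nonneg_left h2 hJ.le
  have h6 := mul_le_mul_of_nonneg_left h1 (Nat.cast_nonneg (α := ℝ) k')
  have h7 : L * (1 / 6 - |((D * k' : ℕ) : ℝ) * (12 * a0 / L) - ((k' * m : ℤ) : ℝ)|) =
      L / 6 - k' * |D * (12 * a0) - m * L| := by
    rw [mul_sub, h3]
    ring
  linarith

/-- **the estimate** -/
theorem est (hDIR : ST_DIR) (hBCH : ST_BCH) {K M : Type} [Field K] [NumberField K] [Field M]
    [NumberField M] (f : K →+* M) (S : Finset ℕ) (A B x : K) {C₀ H E : ℝ} (D : ℕ)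
    (hD : 1 ≤ D) (n : ℕ) (ws ts : Fin n → ℝ) (T SK : Finset (FinitePlace K))
    (hws : ∀ i, 0 ≤ ws i)
    (hT : ∀ v ∈ T, 0 ≤ dl (fun z : K => v z) A B ∧ (IsMul (fun z : K => v z) A B →
      0 < Real.log (v (jK A B)) ∧ dl (fun z : K => v z) A B = Real.log (v (jK A B))))
    (htot : |∑ i, ws i + ∑ v ∈ T, dl (fun z : K => v z) A B - H| ≤ C₀)
    (hSK : ∀ v : FinitePlace K, v ∉ SK → ∀ p ∈ S, v (p : K) = 1)
    (hE : ∀ T' : Finset (FinitePlace M), (∀ V ∈ T', Aw S V ∧ 0 < Real.log (V (f (jK A B)))) →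
      ∃ m : FinitePlace M → ℤ, ∑ V ∈ T', |D * (12 * aV V (f (jK A B)) (f (zz A B x))) -
        m V * Real.log (V (f (jK A B)))| ≤ E) :
    ∃ k : ℕ, 1 ≤ k ∧ k ≤ D * 24 ^ (n + SK.card) ∧
      (H - C₀) / 8 - 24 ^ (n + SK.card) * E ≤ ∑ i, ws i * B2 (k * ts i) +
        ∑ v ∈ T, dl (fun z : K => v z) A B * B2 (k * tz (fun z : K => v z) A B x) := by
  classical
  choose V κ hκ hV using fun v : FinitePlace K => hBCH K M f v
  set T2 : Finset (FinitePlace K) :=
    T.filter (fun v => v ∉ SK ∧ IsMul (fun z : K => v z) A B) with hT2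
  have hinj : ∀ v w : FinitePlace K, V v = V w → v = w := by
    intro v w h
    refine fp_inj (f := f) (V := V v) (hκ v) (hκ w) (hV v) ?_
    intro z
    rw [h]
    exact hV w z
  obtain ⟨m, hm⟩ := hE (T2.image V) (by
    intro W hW
    obtain ⟨v, hv, rfl⟩ := Finset.mem_image.1 hW
    rw [hT2, Finset.mem_filter] at hv
    obtain ⟨hvT, hvS, hvm⟩ := hv
    refine ⟨?_, ?_⟩
    · intro p hp
      have h1 := hV v (p : K)
      rw [map_natCast] at h1
      rw [h1, hSK v hvS p hp, one_pow]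
    · rw [hV, Real.log_pow]
      have h2 := ((hT v hvT).2 hvm).1
      have h3 : (1 : ℝ) ≤ κ v := by exact_mod_cast hκ v
      positivity)
  set er : FinitePlace K → ℝ := fun v => |D * (12 * aV (V v) (f (jK A B)) (f (zz A B x))) -
    m (V v) * Real.log (V v (f (jK A B)))| with her
  have hsum : ∑ v ∈ T2, er v ≤ E := by
    rw [Finset.sum_image (fun v _ w _ h => hinj v w h)] at hm
    exact hm
  have hE0 : 0 ≤ E := le_trans (Finset.sum_nonneg fun v _ => abs_nonneg _) hsum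
  obtain ⟨k', hk1, hk2, hk3⟩ := dir_fin hDIR (ι := Fin n ⊕ {v // v ∈ SK}) 24 (by norm_num)
    (Sum.elim (fun i => (D : ℝ) * ts i)
      (fun v => (D : ℝ) * tz (fun z : K => v.1 z) A B x))
  have hcard : Fintype.card (Fin n ⊕ {v // v ∈ SK}) = n + SK.card := by
    rw [Fintype.card_sum, Fintype.card_fin, Fintype.card_coe]
  rw [hcard] at hk2
  refine ⟨D * k', Nat.one_le_iff_ne_zero.2 (Nat.mul_ne_zero (by omega) (by omega)),
    Nat.mul_le_mul_left D hk2, ?_⟩
  have hk0 : (0 : ℝ) ≤ k' := Nat.cast_nonneg _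
  have hk4 : (k' : ℝ) ≤ 24 ^ (n + SK.card) := by exact_mod_cast hk2
  have h8 : ∀ t : ℝ, (∃ m : ℤ, |k' * (D * t) - m| ≤ 1 / ((24 : ℕ) : ℝ)) →
      1 / 8 ≤ B2 (((D * k' : ℕ) : ℝ) * t) := by
    rintro t ⟨m, hm⟩
    have h1 := B2_near (((D * k' : ℕ) : ℝ) * t) m
    have h2 : ((D * k' : ℕ) : ℝ) * t = k' * (D * t) := by push_cast; ring
    rw [h2] at h1 ⊢
    norm_num at hm
    linarith
  have hA : (∑ i, ws i) / 8 ≤ ∑ i, ws i * B2 (((D * k' : ℕ) : ℝ) * ts i) := by
    rw [Finset.sum_div]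
    apply Finset.sum_le_sum
    intro i _
    have h1 := h8 (ts i) (hk3 (Sum.inl i))
    have h2 := mul_le_mul_of_nonneg_left h1 (hws i)
    linarith
  have hB : ∀ v ∈ T, dl (fun z : K => v z) A B / 8 -
      (if v ∉ SK ∧ IsMul (fun z : K => v z) A B then k' * er v else 0) ≤
      dl (fun z : K => v z) A B *
        B2 (((D * k' : ℕ) : ℝ) * tz (fun z : K => v z) A B x) := by
    intro v hv
    obtain ⟨h1, h2⟩ := hT v hv
    by_cases hS : v ∈ SK
    · rw [if_neg (by tauto), sub_zero]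
      have h3 := h8 (tz (fun z : K => v z) A B x) (hk3 (Sum.inr ⟨v, hS⟩))
      have h4 := mul_le_mul_of_nonneg_left h3 h1
      linarith
    · by_cases hmul : IsMul (fun z : K => v z) A B
      · rw [if_pos ⟨hS, hmul⟩]
        obtain ⟨h3, h4⟩ := h2 hmul
        rw [h4]
        have h5 := mul_place (hκ v) (hV v) hmul h3 D k' (m (V v)) (x := x)
        have h6 : er v = |D * (12 * aV (V v) (f (jK A B)) (f (zz A B x))) -
          m (V v) * Real.log (V v (f (jK A B)))| := rfl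
        rw [h6]
        linarith
      · rw [if_neg (by tauto), sub_zero]
        have h3 : tz (fun z : K => v z) A B x = 0 := by
          unfold tz
          rw [if_neg hmul]
        rw [h3, mul_zero, B2_zero']
        linarith
  have hC := Finset.sum_le_sum hB
  rw [Finset.sum_sub_distrib, ← Finset.sum_div, ← Finset.sum_filter, ← hT2, ← Finset.mul_sum] at hC
  have hF : (k' : ℝ) * ∑ v ∈ T2, er v ≤ 24 ^ (n + SK.card) * E :=
    mul_le_mul hk4 hsum (Finset.sum_nonneg fun v _ => abs_nonneg _) (by positivity)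
  have hG := (abs_le.1 htot).1
  linarith

end Pool.Agent.Helper67.LS5
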